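import Mathlib

set_option autoImplicit false

/-!
# Facts about groups of odd order used in the proof
-/

namespace Pool.Agent.H78.OD

open Finset

variable {G : Type} [Group G] [Fintype G]

/-- a divisor of an odd number, not equal to it, is at most a third of it -/
theorem three_mul_le {m n : ℕ} (hn : Odd n) (hmn : m ∣ n) (hne : m ≠ n) : 3 * m ≤ n := by
  obtain ⟨c, rfl⟩ := hmn
  have hc : Odd c := (Nat.odd_mul.1 hn).2
  have hc1 : c ≠ 1 := by
    rintro rfl
    exact hne (by simp)
  have : 3 ≤ c := by
    obtain ⟨d, rfl⟩ := hc
    omega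
  calc 3 * m = m * 3 := by ring
    _ ≤ m * c := Nat.mul_le_mul_left _ this

/-- in a group of odd order which is not commutative, the order of an element is at most a third
of the order of the group -/
theorem three_orderOf_le (hodd : Odd (Nat.card G)) (hna : ∃ a b : G, a * b ≠ b * a) (g : G) :
    3 * orderOf g ≤ Nat.card G := by
  apply three_mul_le hodd (orderOf_dvd_natCard g)
  intro h
  obtain ⟨a, b, hab⟩ := hna
  have hcyc : IsCyclic G := isCyclic_of_orderOf_eq_card g h
  exact hab (hcyc.isMulCommutative.is_comm.comm a b)

open Classical in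
/-- the elements conjugating `g` into `h`, for `g` not central -/
theorem three_card_conj_le (hodd : Odd (Nat.card G)) (g h : G) (hg : g ∉ Subgroup.center G) :
    3 * (univ.filter fun x : G => x * g * x⁻¹ = h).card ≤ Nat.card G := by
  by_cases hne : (univ.filter fun x : G => x * g * x⁻¹ = h) = ∅
  · rw [hne]; simp
  · obtain ⟨x0, hx0⟩ := Finset.nonempty_iff_ne_empty.2 hne
    have hx0' : x0 * g * x0⁻¹ = h := by simpa using hx0
    have hle : (univ.filter fun x : G => x * g * x⁻¹ = h).card ≤
        Nat.card (Subgroup.centralizer ({g} : Set G)) := by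
      rw [Nat.card_eq_fintype_card, ← Finset.card_univ]
      apply Finset.card_le_card_of_injOn
        (fun x => if hx : x0⁻¹ * x ∈ Subgroup.centralizer ({g} : Set G) then
          (⟨x0⁻¹ * x, hx⟩ : Subgroup.centralizer ({g} : Set G)) else 1)
      · intro x _
        simp
      · have key : ∀ x ∈ (univ.filter fun x : G => x * g * x⁻¹ = h),
            x0⁻¹ * x ∈ Subgroup.centralizer ({g} : Set G) := by
          intro x hx
          have hx' : x * g * x⁻¹ = h := by simpa using hx
          rw [Subgroup.mem_centralizer_iff]
          intro y hy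
          rw [Set.mem_singleton_iff] at hy
          subst hy
          have h1 : x * y * x⁻¹ = x0 * y * x0⁻¹ := by rw [hx', hx0']
          have h2 : x * y = x0 * y * x0⁻¹ * x := by rw [← h1]; group
          calc y * (x0⁻¹ * x) = x0⁻¹ * (x0 * y * x0⁻¹ * x) := by group
            _ = x0⁻¹ * (x * y) := by rw [h2]
            _ = x0⁻¹ * x * y := by group
        intro x hx x' hx' hxx
        have hx1 := key x (by simpa using hx)
        have hx2 := key x' (by simpa using hx')
        simp only [hx1, hx2, dif_pos] at hxx
        have := congrArg Subtype.val hxx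
        simpa using this
    have h3 : 3 * Nat.card (Subgroup.centralizer ({g} : Set G)) ≤ Nat.card G := by
      apply three_mul_le hodd (Subgroup.card_subgroup_dvd_card _)
      intro hc
      apply hg
      have htop : Subgroup.centralizer ({g} : Set G) = ⊤ := Subgroup.eq_top_of_card_eq _ hc
      rw [Subgroup.mem_center_iff]
      intro y
      have hy : y ∈ Subgroup.centralizer ({g} : Set G) := by rw [htop]; trivial
      rw [Subgroup.mem_centralizer_iff] at hy
      exact (hy g rfl).symm
    omega

omit [Fintype G] in
/-- if the product of a list is in a subgroup and all entries but one are in it, so is that one -/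
theorem mem_of_prod_mem (A : Subgroup G) {N : ℕ} (s : Fin N → G) (hs : (List.ofFn s).prod ∈ A)
    (q : Fin N) (h : ∀ i, i ≠ q → s i ∈ A) : s q ∈ A := by
  have hlen : (List.ofFn s).length = N := List.length_ofFn
  have hq : (q : ℕ) < (List.ofFn s).length := by rw [hlen]; exact q.2
  have h1 : ((List.ofFn s).take q).prod ∈ A := by
    apply Subgroup.list_prod_mem
    intro x hx
    rw [List.mem_take_iff_getElem] at hx
    obtain ⟨i, hi, rfl⟩ := hx
    rw [List.getElem_ofFn]
    apply h
    intro hc
    have := congrArg Fin.val hc
    simp at this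
    omega
  have h2 : ((List.ofFn s).drop (q + 1)).prod ∈ A := by
    apply Subgroup.list_prod_mem
    intro x hx
    rw [List.mem_drop_iff_getElem] at hx
    obtain ⟨i, hi, rfl⟩ := hx
    rw [List.getElem_ofFn]
    apply h
    intro hc
    have := congrArg Fin.val hc
    simp at this
    omega
  have h3 : (List.ofFn s).prod =
      ((List.ofFn s).take q).prod * (s q * ((List.ofFn s).drop (q + 1)).prod) := by
    rw [← List.prod_take_mul_prod_drop (List.ofFn s) q, List.drop_eq_getElem_cons hq,
      List.prod_cons, List.getElem_ofFn]
  have h4 : s q = ((List.ofFn s).take q).prod⁻¹ * (List.ofFn s).prod *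
      ((List.ofFn s).drop (q + 1)).prod⁻¹ := by
    rw [h3]; group
  rw [h4]
  exact A.mul_mem (A.mul_mem (A.inv_mem h1) hs) (A.inv_mem h2)

omit [Fintype G] in
/-- at least three of the generators are not central -/
theorem exists_noncentral (hna : ∃ a b : G, a * b ≠ b * a) {N : ℕ} (s : Fin N → G)
    (hprod : (List.ofFn s).prod = 1) (hgen : Subgroup.closure (Set.range s) = ⊤) (p q : Fin N) :
    ∃ i, i ≠ p ∧ i ≠ q ∧ s i ∉ Subgroup.center G := by
  by_contra hcon
  push Not at hcon
  -- both `s p` and `s q` are central
  have key : ∀ p q : Fin N, (∀ i, i ≠ p → i ≠ q → s i ∈ Subgroup.center G) →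
      s p ∈ Subgroup.center G := by
    intro p q h
    set A := Subgroup.centralizer ({s p} : Set G) with hA
    have hcA : Subgroup.center G ≤ A := Subgroup.center_le_centralizer _
    have hpA : s p ∈ A := by
      rw [hA, Subgroup.mem_centralizer_iff]
      intro y hy
      rw [Set.mem_singleton_iff.1 hy]
    have hall : ∀ i, i ≠ q → s i ∈ A := by
      intro i hi
      by_cases hip : i = p
      · rw [hip]; exact hpA
      · exact hcA (h i hip hi)
    have hqA : s q ∈ A := mem_of_prod_mem A s (by rw [hprod]; exact A.one_mem) q hall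
    have htop : A = ⊤ := by
      rw [eq_top_iff, ← hgen, Subgroup.closure_le]
      rintro _ ⟨i, rfl⟩
      by_cases hiq : i = q
      · rw [hiq]; exact hqA
      · exact hall i hiq
    rw [Subgroup.mem_center_iff]
    intro y
    have hy : y ∈ A := by rw [htop]; trivial
    rw [hA, Subgroup.mem_centralizer_iff] at hy
    exact (hy _ rfl).symm
  have hp := key p q hcon
  have hq := key q p (fun i h1 h2 => hcon i h2 h1)
  have htop : Subgroup.center G = ⊤ := by
    rw [eq_top_iff, ← hgen, Subgroup.closure_le]
    rintro _ ⟨i, rfl⟩
    by_cases hip : i = p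
    · rw [hip]; exact hp
    · by_cases hiq : i = q
      · rw [hiq]; exact hq
      · exact hcon i hip hiq
  obtain ⟨a, b, hab⟩ := hna
  have hb : a ∈ Subgroup.center G := by rw [htop]; trivial
  rw [Subgroup.mem_center_iff] at hb
  exact hab (hb b).symm

open Classical in
/-- the number of central generators is at most `N - 3` -/
theorem card_central_le (hna : ∃ a b : G, a * b ≠ b * a) {N : ℕ} (hN : 1 ≤ N) (s : Fin N → G)
    (hprod : (List.ofFn s).prod = 1) (hgen : Subgroup.closure (Set.range s) = ⊤) :
    (univ.filter fun i : Fin N => s i ∈ Subgroup.center G).card + 3 ≤ N := by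
  obtain ⟨p, -, -, hp⟩ := exists_noncentral hna s hprod hgen ⟨0, hN⟩ ⟨0, hN⟩
  obtain ⟨q, hqp, -, hq⟩ := exists_noncentral hna s hprod hgen p p
  obtain ⟨r, hrp, hrq, hr⟩ := exists_noncentral hna s hprod hgen p q
  have hsub : ({p, q, r} : Finset (Fin N)) ⊆
      univ.filter fun i : Fin N => ¬ s i ∈ Subgroup.center G := by
    intro i hi
    simp only [mem_insert, mem_singleton] at hi
    rcases hi with rfl | rfl | rfl <;> simp [hp, hq, hr]
  have hcard : ({p, q, r} : Finset (Fin N)).card = 3 := by
    rw [card_insert_of_notMem, card_insert_of_notMem, card_singleton]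
    · simpa using hrq.symm
    · simp only [mem_insert, mem_singleton, not_or]
      exact ⟨hqp.symm, hrp.symm⟩
  have h1 := card_le_card hsub
  have h2 := Finset.card_filter_add_card_filter_not (s := (univ : Finset (Fin N)))
    (fun i : Fin N => s i ∈ Subgroup.center G)
  rw [card_univ, Fintype.card_fin] at h2
  omega

end Pool.Agent.H78.OD
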