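import Pool.Agent.H92.OG.Num
import Pool.Agent.H92.OG.Sum
import Pool.Agent.H78.OD.Group

set_option autoImplicit false

/-!
# The lower bound for the dimension of the space of invariant quadrics, odd order
-/

namespace Pool.Agent.H78.OD

open Finset Pool.Agent.H82.CO Pool.Agent.H92.OG

variable {G : Type} [Group G] [Fintype G] {N : ℕ}

omit [Fintype G] in
theorem orderOf_conj (a w : G) : orderOf (w * a * w⁻¹) = orderOf a := by
  have := orderOf_injective (MulAut.conj w).toMonoidHom (MulAut.conj w).injective a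
  simpa using this

omit [Fintype G] in
theorem y_conj (a w : G) : y (w * a * w⁻¹) = y a := by
  unfold y; rw [orderOf_conj]

omit [Fintype G] in
theorem z_conj (a w : G) : z (w * a * w⁻¹) = z a := by
  unfold z; rw [y_conj]

theorem three_le_orderOf (ho : Odd (Nat.card G)) {a : G} (ha : a ≠ 1) : 3 ≤ orderOf a := by
  have h1 : Odd (orderOf a) := Odd.of_dvd_nat ho (orderOf_dvd_natCard a)
  have h2 : orderOf a ≠ 1 := by rwa [Ne, orderOf_eq_one_iff]
  obtain ⟨d, hd⟩ := h1
  omega

theorem z_nonneg (ho : Odd (Nat.card G)) {a : G} (ha : a ≠ 1) : 0 ≤ z a := by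
  have h1 : (3 : ℝ) ≤ orderOf a := by exact_mod_cast three_le_orderOf ho ha
  have h2 : 1 / (orderOf a : ℝ) ≤ 1 / 3 := one_div_le_one_div_of_le (by norm_num) h1
  unfold z y
  linarith

omit [Fintype G] in
theorem z_le_one (a : G) : z a ≤ 1 := by
  have h2 : 0 ≤ 1 / (orderOf a : ℝ) := by positivity
  unfold z y
  linarith

open Classical in
/-- the sum over all conjugates of the second element -/
theorem sum_q_ge_aux (ho : Odd (Nat.card G)) {a b : G} (ha : a ≠ 1) (hb : b ≠ 1) :
    (Nat.card G : ℝ) * ((1 - y a) * (1 - y b) / 4) - z a * z b *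
      ((Nat.card G : ℝ) * (5 / 108) + ((univ.filter fun w : G => w * b * w⁻¹ = a).card : ℝ) / 27) ≤
      ∑ w : G, q a (w * b * w⁻¹) := by
  have h1 : ∀ w : G, (1 - y a) * (1 - y b) / 4 -
      (z a * z b * (5 / 108) + if w * b * w⁻¹ = a then z a * z b / 27 else 0) ≤
      q a (w * b * w⁻¹) := by
    intro w
    by_cases hw : w * b * w⁻¹ = a
    · rw [if_pos hw, hw]
      have hy : y b = y a := by rw [← hw, y_conj]
      have hz : z b = z a := by rw [← hw, z_conj]
      have h2 := q_ge_self a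
      rw [hy, hz]
      linarith
    · rw [if_neg hw]
      have hb' : w * b * w⁻¹ ≠ 1 := by
        intro hc
        apply hb
        have : b = w⁻¹ * (w * b * w⁻¹) * w := by group
        rw [this, hc]; group
      have h2 := q_ge ho ha hb' (Ne.symm hw)
      rw [y_conj, z_conj] at h2
      linarith
  have h2 := Finset.sum_le_sum (s := univ) fun w _ => h1 w
  refine le_trans (le_of_eq ?_) h2
  rw [Finset.sum_sub_distrib, Finset.sum_add_distrib, Finset.sum_const, Finset.sum_const,
    ← Finset.sum_filter, Finset.sum_const, card_univ, Nat.card_eq_fintype_card]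
  simp only [nsmul_eq_mul]
  ring

theorem sum_q_ge_all (ho : Odd (Nat.card G)) {a b : G} (ha : a ≠ 1) (hb : b ≠ 1) :
    (Nat.card G : ℝ) * ((1 - y a) * (1 - y b) / 4 - z a * z b / 12) ≤
      ∑ w : G, q a (w * b * w⁻¹) := by
  classical
  refine le_trans ?_ (sum_q_ge_aux ho ha hb)
  have hz : 0 ≤ z a * z b := mul_nonneg (z_nonneg ho ha) (z_nonneg ho hb)
  have hc : ((univ.filter fun w : G => w * b * w⁻¹ = a).card : ℝ) ≤ Nat.card G := by
    rw [Nat.card_eq_fintype_card]
    exact_mod_cast card_le_univ _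
  have h1 : z a * z b * ((Nat.card G : ℝ) * (5 / 108) +
      ((univ.filter fun w : G => w * b * w⁻¹ = a).card : ℝ) / 27) ≤
      z a * z b * ((Nat.card G : ℝ) * (5 / 108) + (Nat.card G : ℝ) / 27) := by
    apply mul_le_mul_of_nonneg_left _ hz
    linarith
  linarith

theorem sum_q_ge_noncentral (ho : Odd (Nat.card G)) {a b : G} (ha : a ≠ 1) (hb : b ≠ 1)
    (h : a ∉ Subgroup.center G ∨ b ∉ Subgroup.center G) :
    (Nat.card G : ℝ) * ((1 - y a) * (1 - y b) / 4 - 19 / 324 * (z a * z b)) ≤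
      ∑ w : G, q a (w * b * w⁻¹) := by
  classical
  refine le_trans ?_ (sum_q_ge_aux ho ha hb)
  have hz : 0 ≤ z a * z b := mul_nonneg (z_nonneg ho ha) (z_nonneg ho hb)
  have hc3 : 3 * (univ.filter fun w : G => w * b * w⁻¹ = a).card ≤ Nat.card G := by
    by_cases hbc : b ∈ Subgroup.center G
    · have ha' : a ∉ Subgroup.center G := by
        rcases h with h | h
        · exact h
        · exact absurd hbc h
      have hempty : (univ.filter fun w : G => w * b * w⁻¹ = a) = ∅ := by
        rw [filter_eq_empty_iff]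
        intro w _ hw
        apply ha'
        have h3 : w * b * w⁻¹ = b := by
          rw [Subgroup.mem_center_iff.1 hbc w]; group
        rw [← hw, h3]; exact hbc
      rw [hempty]; simp
    · exact three_card_conj_le ho b a hbc
  have hc : ((univ.filter fun w : G => w * b * w⁻¹ = a).card : ℝ) ≤ Nat.card G / 3 := by
    rw [le_div_iff₀ (by norm_num)]
    have : ((3 * (univ.filter fun w : G => w * b * w⁻¹ = a).card : ℕ) : ℝ) ≤ Nat.card G := by
      exact_mod_cast hc3
    push_cast at this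
    linarith
  have h1 : z a * z b * ((Nat.card G : ℝ) * (5 / 108) +
      ((univ.filter fun w : G => w * b * w⁻¹ = a).card : ℝ) / 27) ≤
      z a * z b * ((Nat.card G : ℝ) * (5 / 108) + (Nat.card G : ℝ) / 3 / 27) := by
    apply mul_le_mul_of_nonneg_left _ hz
    linarith
  linarith

open Classical in
/-- the sum of the `z` over the central generators -/
noncomputable def Zc (s : Fin N → G) : ℝ :=
  ∑ i, if s i ∈ Subgroup.center G then z (s i) else 0

/-- the sum of the `z` -/
noncomputable def Zs (s : Fin N → G) : ℝ := ∑ i, z (s i)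

theorem sum_q_total (ho : Odd (Nat.card G)) (s : Fin N → G) (hs : ∀ i, s i ≠ 1) :
    (Nat.card G : ℝ) * (nu s ^ 2 / 4 - 19 / 324 * Zs s ^ 2 - 8 / 324 * Zc s ^ 2) ≤
      ∑ i, ∑ j, ∑ w : G, q (s i) (w * s j * w⁻¹) := by
  classical
  have h1 : ∀ i j, (Nat.card G : ℝ) * ((1 - y (s i)) * (1 - y (s j)) / 4 -
      19 / 324 * (z (s i) * z (s j)) -
      8 / 324 * ((if s i ∈ Subgroup.center G then z (s i) else 0) *
        (if s j ∈ Subgroup.center G then z (s j) else 0))) ≤
      ∑ w : G, q (s i) (w * s j * w⁻¹) := by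
    intro i j
    by_cases hi : s i ∈ Subgroup.center G
    · by_cases hj : s j ∈ Subgroup.center G
      · rw [if_pos hi, if_pos hj]
        refine le_trans (le_of_eq ?_) (sum_q_ge_all ho (hs i) (hs j))
        ring
      · rw [if_neg hj]
        refine le_trans (le_of_eq ?_) (sum_q_ge_noncentral ho (hs i) (hs j) (Or.inr hj))
        ring
    · rw [if_neg hi]
      refine le_trans (le_of_eq ?_) (sum_q_ge_noncentral ho (hs i) (hs j) (Or.inl hi))
      ring
  have h2 := Finset.sum_le_sum (s := univ) fun i _ =>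
    Finset.sum_le_sum (s := (univ : Finset (Fin N))) fun j _ => h1 i j
  refine le_trans (le_of_eq ?_) h2
  have hnu : nu s = ∑ i, (1 - y (s i)) := rfl
  have e1 : nu s ^ 2 = ∑ i, ∑ j, (1 - y (s i)) * (1 - y (s j)) := by
    rw [hnu, sq, Finset.sum_mul_sum]
  have e2 : Zs s ^ 2 = ∑ i, ∑ j, z (s i) * z (s j) := by
    rw [Zs, sq, Finset.sum_mul_sum]
  have e3 : Zc s ^ 2 = ∑ i, ∑ j, (if s i ∈ Subgroup.center G then z (s i) else 0) *
        (if s j ∈ Subgroup.center G then z (s j) else 0) := by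
    rw [Zc, sq, Finset.sum_mul_sum]
  rw [e1, e2, e3]
  simp only [Finset.mul_sum, Finset.sum_div, ← Finset.sum_sub_distrib]

theorem two_quadInv (ho : Odd (Nat.card G)) (s : Fin N → G) :
    2 * (Nat.card G : ℝ) * (quadInv s).re = (∑ g : G, chi s g ^ 2).re := by
  have hn : (0 : ℝ) < Nat.card G := by exact_mod_cast Nat.card_pos
  have h1 : (quadInv s).re = (1 / (2 * (Nat.card G : ℝ))) *
      (∑ g : G, (chi s g ^ 2 + chi s (g ^ 2))).re := by
    unfold quadInv
    have : (1 / (2 * (Nat.card G : ℂ))) = ((1 / (2 * (Nat.card G : ℝ)) : ℝ) : ℂ) := by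
      push_cast; rfl
    rw [this, Complex.re_ofReal_mul]
  rw [h1, sum_add_distrib, Complex.add_re, Complex.re_sum (f := fun g : G => chi s (g ^ 2)),
    fs_odd s ho, add_zero]
  field_simp

/-- the main bound -/
theorem main_bound (ho : Odd (Nat.card G)) (s : Fin N → G) (hs : ∀ i, s i ≠ 1) :
    (Nat.card G : ℝ) * (9 * (2 * ((N : ℝ) - 3) + Zs s) ^ 2 - 19 * Zs s ^ 2 - 8 * Zc s ^ 2) ≤
      324 * (2 * (quadInv s).re + 1) := by
  have hn : (0 : ℝ) < Nat.card G := by exact_mod_cast Nat.card_pos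
  have h1 := two_quadInv ho s
  rw [sum_chi_sq] at h1
  have h2 := sum_q_total ho s hs
  have hnu : nu s = (2 * N + Zs s) / 3 := by
    have : nu s = ∑ i, (2 / 3 + z (s i) / 3) := by
      unfold nu
      apply Finset.sum_congr rfl
      intro i _
      unfold z y
      ring
    have h3 : ∑ i, z (s i) / 3 = (∑ i, z (s i)) / 3 := (Finset.sum_div _ _ _).symm
    rw [this, sum_add_distrib, h3, Zs, sum_const, card_univ, Fintype.card_fin, nsmul_eq_mul]
    ring
  have h3 : (Nat.card G : ℝ) * ((Nat.card G : ℝ) *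
      (nu s ^ 2 / 4 - 19 / 324 * Zs s ^ 2 - 8 / 324 * Zc s ^ 2)) ≤
      (Nat.card G : ℝ) * ∑ i, ∑ j, ∑ w : G, q (s i) (w * s j * w⁻¹) :=
    mul_le_mul_of_nonneg_left h2 hn.le
  have h4 : (Nat.card G : ℝ) * ((Nat.card G : ℝ) * ((nu s - 2) ^ 2 / 4 - 19 / 324 * Zs s ^ 2 -
      8 / 324 * Zc s ^ 2)) ≤ (Nat.card G : ℝ) * (2 * (quadInv s).re + 1) := by
    nlinarith
  have h5 := le_of_mul_le_mul_left h4 hn
  have h6 : (nu s - 2) ^ 2 / 4 = 9 * (2 * ((N : ℝ) - 3) + Zs s) ^ 2 / 324 := by
    rw [hnu]; ring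
  rw [h6] at h5
  linarith

end Pool.Agent.H78.OD
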