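import Mathlib

set_option autoImplicit false

/-!
# The elementary inequality at the end of the proof for groups of odd order
-/

namespace Pool.Agent.H78.OD

/-- the bracket is large: dimension at least two -/
theorem ineq_big {n M Z Zc : ℝ} (hn : 21 ≤ n) (hM : 2 ≤ M) (hZ0 : 0 ≤ Z) (hZ : Z ≤ M + 3)
    (hc0 : 0 ≤ Zc) (hcM : Zc ≤ M) (hcZ : Zc ≤ Z) :
    324 * (2 * M + 1) < n * (36 * M ^ 2 + 36 * M * Z - 10 * Z ^ 2 - 8 * Zc ^ 2) := by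
  have h1 : Zc ^ 2 ≤ M * Z := by nlinarith
  have h2 : 0 ≤ Z * (28 * M - 10 * Z) := mul_nonneg hZ0 (by linarith)
  have h3 : 36 * M ^ 2 ≤ 36 * M ^ 2 + 36 * M * Z - 10 * Z ^ 2 - 8 * Zc ^ 2 := by nlinarith
  have h4 : 21 * (36 * M ^ 2) ≤ n * (36 * M ^ 2 + 36 * M * Z - 10 * Z ^ 2 - 8 * Zc ^ 2) := by
    apply mul_le_mul hn h3 (by positivity) (by linarith)
  nlinarith

/-- the bracket is large: dimension one, the order of the group is larger than 27 -/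
theorem ineq_one {n Z Zc : ℝ} (hn : 28 ≤ n) (hZ0 : 0 ≤ Z) (hZ : Z ≤ 4 - 36 / n)
    (hc0 : 0 ≤ Zc) (hc1 : Zc ≤ 1) (hcZ : Zc ≤ Z) :
    972 < n * (36 + 36 * Z - 10 * Z ^ 2 - 8 * Zc ^ 2) := by
  have hn0 : (0 : ℝ) < n := by linarith
  have h1 : Zc ^ 2 ≤ Z := by nlinarith
  have h1' : Zc ^ 2 ≤ 1 := by nlinarith
  rcases le_total Z (14 / 5) with h | h
  · have h2 : 0 ≤ Z * (28 - 10 * Z) := mul_nonneg hZ0 (by linarith)
    have h3 : 36 ≤ 36 + 36 * Z - 10 * Z ^ 2 - 8 * Zc ^ 2 := by nlinarith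
    nlinarith
  · set u : ℝ := 36 / n with hu
    have hun : u * n = 36 := by rw [hu]; field_simp
    have hu0 : 0 < u := by positivity
    have hu1 : u ≤ 36 / 28 := by
      rw [hu]; exact div_le_div_of_nonneg_left (by norm_num) (by norm_num) hn
    have hu2 : u ≤ 4 - Z := by linarith
    have h3 : 28 + 36 * (4 - u) - 10 * (4 - u) ^ 2 ≤ 28 + 36 * Z - 10 * Z ^ 2 := by
      nlinarith
    have h4 : 12 + 44 * u - 10 * u ^ 2 ≤ 36 + 36 * Z - 10 * Z ^ 2 - 8 * Zc ^ 2 := by nlinarith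
    have h5 : n * (12 + 44 * u - 10 * u ^ 2) ≤ n * (36 + 36 * Z - 10 * Z ^ 2 - 8 * Zc ^ 2) :=
      mul_le_mul_of_nonneg_left h4 hn0.le
    have h6 : n * (12 + 44 * u - 10 * u ^ 2) = 12 * n + 44 * 36 - 360 * u := by
      have : n * (12 + 44 * u - 10 * u ^ 2) = 12 * n + 44 * (u * n) - 10 * u * (u * n) := by ring
      rw [this, hun]; ring
    nlinarith

/-- dimension one, order 21 -/
theorem ineq_twentyone {Z Zc : ℝ} (hZ0 : 4 / 7 ≤ Z) (hZ : Z ≤ 16 / 7)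
    (hc0 : 0 ≤ Zc) (hc1 : Zc ≤ 1) (hcZ : Zc ≤ Z) :
    972 < 21 * (36 + 36 * Z - 10 * Z ^ 2 - 8 * Zc ^ 2) := by
  have h1 : Zc ^ 2 ≤ Z := by nlinarith
  nlinarith [mul_nonneg (sub_nonneg.2 hZ0) (sub_nonneg.2 hZ)]

/-- dimension one, order 27 -/
theorem ineq_twentyseven {Z Zc : ℝ} (hZ0 : 2 / 3 ≤ Z) (hZ : Z ≤ 8 / 3)
    (hc0 : 0 ≤ Zc) (hc1 : Zc ≤ 1) (hcZ : Zc ≤ Z) :
    972 < 27 * (36 + 36 * Z - 10 * Z ^ 2 - 8 * Zc ^ 2) := by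
  have h1 : Zc ^ 2 ≤ Z := by nlinarith
  nlinarith [mul_nonneg (sub_nonneg.2 hZ0) (sub_nonneg.2 hZ)]

end Pool.Agent.H78.OD
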