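import Pool.Agent.H78.OD.Three
import Pool.Agent.H78.OD.Ineq
import Pool.Agent.H15.OD.Order

set_option autoImplicit false

/-!
# Groups of odd order which are not commutative: the criterion never holds
-/

namespace Pool.Agent.H78.OD

open Finset Pool.Agent.H82.CO Pool.Agent.H92.OG

variable {G : Type} [Group G] [Fintype G] {N : ℕ}

theorem Zs_nonneg (ho : Odd (Nat.card G)) (s : Fin N → G) (hs : ∀ i, s i ≠ 1) : 0 ≤ Zs s :=
  Finset.sum_nonneg fun i _ => z_nonneg ho (hs i)

theorem Zs_le {s : Fin N → G} {b : ℝ} (h : ∀ i, z (s i) ≤ b) : Zs s ≤ N * b := by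
  have h1 := Finset.sum_le_sum (s := univ) fun i (_ : i ∈ (univ : Finset (Fin N))) => h i
  rw [sum_const, card_univ, Fintype.card_fin, nsmul_eq_mul] at h1
  exact h1

theorem Zc_nonneg (ho : Odd (Nat.card G)) (s : Fin N → G) (hs : ∀ i, s i ≠ 1) : 0 ≤ Zc s := by
  classical
  apply Finset.sum_nonneg
  intro i _
  split_ifs
  · exact z_nonneg ho (hs i)
  · exact le_rfl

theorem Zc_le_Zs (ho : Odd (Nat.card G)) (s : Fin N → G) (hs : ∀ i, s i ≠ 1) : Zc s ≤ Zs s := by
  classical
  apply Finset.sum_le_sum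
  intro i _
  split_ifs
  · exact le_rfl
  · exact z_nonneg ho (hs i)

theorem Zc_le (hna : ∃ a b : G, a * b ≠ b * a) (hN : 1 ≤ N) (s : Fin N → G)
    (hprod : (List.ofFn s).prod = 1) (hgen : Subgroup.closure (Set.range s) = ⊤) :
    Zc s ≤ N - 3 := by
  classical
  have h1 := card_central_le hna hN s hprod hgen
  have h2 : Zc s ≤ ∑ i : Fin N, if s i ∈ Subgroup.center G then (1 : ℝ) else 0 := by
    apply Finset.sum_le_sum
    intro i _
    split_ifs
    · exact z_le_one _
    · exact le_rfl
  have h3 : (∑ i : Fin N, if s i ∈ Subgroup.center G then (1 : ℝ) else 0) =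
      ((univ.filter fun i : Fin N => s i ∈ Subgroup.center G).card : ℝ) := by
    rw [← Finset.sum_filter, sum_const, nsmul_eq_mul, mul_one]
  have h4 : ((univ.filter fun i : Fin N => s i ∈ Subgroup.center G).card : ℝ) + 3 ≤ N := by
    exact_mod_cast h1
  linarith

theorem z_le_of_order {a : G} {m : ℕ} (hm : orderOf a ≤ m) : z a ≤ 1 - 3 / m := by
  have h0 : (0 : ℝ) < orderOf a := by exact_mod_cast orderOf_pos a
  have h1 : (orderOf a : ℝ) ≤ m := by exact_mod_cast hm
  have h2 : 1 / (m : ℝ) ≤ 1 / (orderOf a : ℝ) := one_div_le_one_div_of_le h0 h1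
  unfold z y
  have h3 : 3 / (m : ℝ) = 3 * (1 / m) := by ring
  linarith

/-- at least four branch points: linear growth -/
theorem linear_bound (ho : Odd (Nat.card G)) (hna : ∃ a b : G, a * b ≠ b * a) (hN : 4 ≤ N)
    (s : Fin N → G) (hs : ∀ i, s i ≠ 1) (hprod : (List.ofFn s).prod = 1)
    (hgen : Subgroup.closure (Set.range s) = ⊤) :
    (Nat.card G : ℝ) * ((N : ℝ) - 3) ^ 2 ≤ 27 * (2 * (quadInv s).re + 1) := by
  have h0 := main_bound ho s hs
  have hn : (0 : ℝ) < Nat.card G := by exact_mod_cast Nat.card_pos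
  have hZ0 := Zs_nonneg ho s hs
  have hZ1 : Zs s ≤ N := by
    have := Zs_le (s := s) (b := 1) (fun i => z_le_one _)
    linarith
  have hc0 := Zc_nonneg ho s hs
  have hc1 := Zc_le_Zs ho s hs
  have hc2 := Zc_le hna (by omega) s hprod hgen
  have hN' : (4 : ℝ) ≤ N := by exact_mod_cast hN
  set M : ℝ := (N : ℝ) - 3 with hM
  have hM1 : 1 ≤ M := by linarith
  have hZ2 : Zs s ≤ M + 3 := by linarith
  have hB : 12 * M ^ 2 ≤ 9 * (2 * M + Zs s) ^ 2 - 19 * Zs s ^ 2 - 8 * Zc s ^ 2 := by
    rcases Nat.lt_or_ge N 5 with h | h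
    · have hN4 : N = 4 := by omega
      have hM' : M = 1 := by rw [hM, hN4]; norm_num
      rw [hM'] at hc2 hZ2 ⊢
      rcases le_total (Zs s) (14 / 5) with h5 | h5
      · have h6 : Zc s ^ 2 ≤ Zs s := by nlinarith
        nlinarith [mul_nonneg hZ0 (sub_nonneg.2 h5)]
      · have h6 : Zc s ^ 2 ≤ 1 := by nlinarith
        nlinarith [mul_nonneg (sub_nonneg.2 h5) (sub_nonneg.2 hZ2)]
    · have hM2 : 2 ≤ M := by
        have : (5 : ℝ) ≤ N := by exact_mod_cast h
        linarith
      have h6 : Zc s ^ 2 ≤ M * Zs s := by nlinarith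
      have h7 : 0 ≤ Zs s * (28 * M - 10 * Zs s) := mul_nonneg hZ0 (by linarith)
      nlinarith
  have h1 := mul_le_mul_of_nonneg_left hB hn.le
  linarith

theorem order_mem_of_dvd_21 {m : ℕ} (h : m ∣ 21) (h1 : m ≠ 1) (h2 : 3 * m ≤ 21) :
    m = 3 ∨ m = 7 := by
  have h3 : m ≤ 7 := by omega
  interval_cases m <;> revert h h1 <;> decide

theorem order_mem_of_dvd_27 {m : ℕ} (h : m ∣ 27) (h1 : m ≠ 1) (h2 : 3 * m ≤ 27) :
    m = 3 ∨ m = 9 := by
  have h3 : m ≤ 9 := by omega
  interval_cases m <;> revert h h1 <;> decide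

/-- the criterion never holds -/
theorem gt_of_odd (ho : Odd (Nat.card G)) (hna : ∃ a b : G, a * b ≠ b * a) (hN : 4 ≤ N)
    (s : Fin N → G) (hs : ∀ i, s i ≠ 1) (hprod : (List.ofFn s).prod = 1)
    (hgen : Subgroup.closure (Set.range s) = ⊤) :
    (N : ℝ) - 3 < (quadInv s).re := by
  have h0 := main_bound ho s hs
  have hn : (0 : ℝ) < Nat.card G := by exact_mod_cast Nat.card_pos
  have hZ0 := Zs_nonneg ho s hs
  have hZ1 : Zs s ≤ N := by
    have := Zs_le (s := s) (b := 1) (fun i => z_le_one _)
    linarith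
  have hc0 := Zc_nonneg ho s hs
  have hc1 := Zc_le_Zs ho s hs
  have hc2 := Zc_le hna (by omega) s hprod hgen
  have hcases := Pool.Agent.H15.OD.order_cases ho hna
  have h21 : (21 : ℝ) ≤ Nat.card G := by
    have : 21 ≤ Nat.card G := by omega
    exact_mod_cast this
  rcases Nat.lt_or_ge N 5 with h | h
  · have hN4 : N = 4 := by omega
    subst hN4
    push_cast at *
    have hB : 9 * (2 * ((4 : ℝ) - 3) + Zs s) ^ 2 - 19 * Zs s ^ 2 - 8 * Zc s ^ 2 =
        36 + 36 * Zs s - 10 * Zs s ^ 2 - 8 * Zc s ^ 2 := by ring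
    rw [hB] at h0
    have hc3 : Zc s ≤ 1 := by linarith
    have hdvd : ∀ i, orderOf (s i) ∣ Nat.card G := fun i => orderOf_dvd_natCard _
    have hne : ∀ i, orderOf (s i) ≠ 1 := fun i => by rw [Ne, orderOf_eq_one_iff]; exact hs i
    have h3le : ∀ i, 3 * orderOf (s i) ≤ Nat.card G := fun i => three_orderOf_le ho hna _
    rcases hcases with hc | hc | hc
    · have hord : ∀ i, orderOf (s i) = 3 ∨ orderOf (s i) = 7 := fun i =>
        order_mem_of_dvd_21 (hc ▸ hdvd i) (hne i) (hc ▸ h3le i)
      by_cases hall : ∀ i, orderOf (s i) = 3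
      · have hconj : ∀ i j, 3 ≤ tc (s i) (s j) := by
          intro i j
          apply three_le_tc (hall i)
          obtain ⟨x, hx⟩ := Pool.Agent.H15.OD.sylow_conj hc (s j) (s i) (hall j) (hall i)
          exact ⟨x, hx.symm⟩
        have ht : (48 : ℝ) ≤ ∑ i, ∑ j, (tc (s i) (s j) : ℝ) := by
          have h4 : ∑ i : Fin 4, ∑ j : Fin 4, (3 : ℝ) ≤ ∑ i, ∑ j, (tc (s i) (s j) : ℝ) := by
            apply Finset.sum_le_sum
            intro i _
            apply Finset.sum_le_sum
            intro j _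
            exact_mod_cast hconj i j
          simp only [sum_const, card_univ, Fintype.card_fin, nsmul_eq_mul] at h4
          push_cast at h4
          linarith
        have h5 := bound_three ho s hall ht
        rw [hc] at h5
        push_cast at h5
        linarith
      · push Not at hall
        obtain ⟨i0, hi0⟩ := hall
        have hi7 : orderOf (s i0) = 7 := (hord i0).resolve_left hi0
        have hz7 : z (s i0) = 4 / 7 := by unfold z y; rw [hi7]; norm_num
        have hlow : 4 / 7 ≤ Zs s := by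
          rw [← hz7]
          exact Finset.single_le_sum (f := fun i => z (s i)) (fun i _ => z_nonneg ho (hs i))
            (mem_univ i0)
        have hhigh : Zs s ≤ 16 / 7 := by
          have h5 : ∀ i, z (s i) ≤ 4 / 7 := by
            intro i
            have h6 : orderOf (s i) ≤ 7 := by
              rcases hord i with h7 | h7 <;> omega
            have h7 := z_le_of_order h6
            push_cast at h7
            linarith
          have h6 := Zs_le h5
          push_cast at h6
          linarith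
        have h5 := ineq_twentyone hlow hhigh hc0 hc3 hc1
        rw [hc] at h0
        push_cast at h0
        linarith
    · have hord : ∀ i, orderOf (s i) = 3 ∨ orderOf (s i) = 9 := fun i =>
        order_mem_of_dvd_27 (hc ▸ hdvd i) (hne i) (hc ▸ h3le i)
      by_cases hall : ∀ i, orderOf (s i) = 3
      · have ht : (1 : ℝ) ≤ ∑ i, ∑ j, (tc (s i) (s j) : ℝ) := by
          have h4 : (tc (s 0) (s 0) : ℝ) ≤ ∑ j, (tc (s 0) (s j) : ℝ) :=
            Finset.single_le_sum (f := fun j => (tc (s 0) (s j) : ℝ))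
              (fun j _ => Nat.cast_nonneg _) (mem_univ 0)
          have h5 : ∑ j, (tc (s 0) (s j) : ℝ) ≤ ∑ i, ∑ j, (tc (s i) (s j) : ℝ) :=
            Finset.single_le_sum (f := fun i => ∑ j, (tc (s i) (s j) : ℝ))
              (fun i _ => Finset.sum_nonneg fun j _ => Nat.cast_nonneg _) (mem_univ 0)
          have h6 : (1 : ℝ) ≤ (tc (s 0) (s 0) : ℝ) := by exact_mod_cast tc_self_pos (s 0)
          linarith
        have h5 := bound_three ho s hall ht
        rw [hc] at h5
        push_cast at h5
        linarith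
      · push Not at hall
        obtain ⟨i0, hi0⟩ := hall
        have hi9 : orderOf (s i0) = 9 := (hord i0).resolve_left hi0
        have hz9 : z (s i0) = 2 / 3 := by unfold z y; rw [hi9]; norm_num
        have hlow : 2 / 3 ≤ Zs s := by
          rw [← hz9]
          exact Finset.single_le_sum (f := fun i => z (s i)) (fun i _ => z_nonneg ho (hs i))
            (mem_univ i0)
        have hhigh : Zs s ≤ 8 / 3 := by
          have h5 : ∀ i, z (s i) ≤ 2 / 3 := by
            intro i
            have h6 : orderOf (s i) ≤ 9 := by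
              rcases hord i with h7 | h7 <;> omega
            have h7 := z_le_of_order h6
            push_cast at h7
            linarith
          have h6 := Zs_le h5
          push_cast at h6
          linarith
        have h5 := ineq_twentyseven hlow hhigh hc0 hc3 hc1
        rw [hc] at h0
        push_cast at h0
        linarith
    · have hn28 : (28 : ℝ) ≤ Nat.card G := by exact_mod_cast hc
      have hhigh : Zs s ≤ 4 - 36 / (Nat.card G : ℝ) := by
        have h5 : ∀ i, z (s i) ≤ 1 - 9 / (Nat.card G : ℝ) := by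
          intro i
          have h6 : (0 : ℝ) < orderOf (s i) := by exact_mod_cast orderOf_pos (s i)
          have h7 : 3 * (orderOf (s i) : ℝ) ≤ Nat.card G := by exact_mod_cast h3le i
          have h8 : 9 / (Nat.card G : ℝ) ≤ 3 / (orderOf (s i) : ℝ) := by
            rw [div_le_div_iff₀ hn h6]; linarith
          unfold z y
          have h9 : 3 / (orderOf (s i) : ℝ) = 3 * (1 / orderOf (s i)) := by ring
          linarith
        have h6 := Zs_le h5
        have h7 : (36 : ℝ) / (Nat.card G : ℝ) = 4 * (9 / (Nat.card G : ℝ)) := by ring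
        push_cast at h6
        linarith
      have h5 := ineq_one hn28 hZ0 hhigh hc0 hc3 hc1
      linarith
  · have hM2 : (2 : ℝ) ≤ (N : ℝ) - 3 := by
      have : (5 : ℝ) ≤ N := by exact_mod_cast h
      linarith
    have h5 := ineq_big h21 hM2 hZ0 (by linarith : Zs s ≤ ((N : ℝ) - 3) + 3) hc0 hc2 hc1
    have hB : 9 * (2 * ((N : ℝ) - 3) + Zs s) ^ 2 - 19 * Zs s ^ 2 - 8 * Zc s ^ 2 =
        36 * ((N : ℝ) - 3) ^ 2 + 36 * ((N : ℝ) - 3) * Zs s - 10 * Zs s ^ 2 - 8 * Zc s ^ 2 := by
      ring
    rw [hB] at h0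
    linarith

end Pool.Agent.H78.OD
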