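import Pool.Agent.H78.OD.Bound

set_option autoImplicit false

/-!
# Four generators of order three in a group of order 21 or 27
-/

namespace Pool.Agent.H78.OD

open Finset Pool.Agent.H82.CO Pool.Agent.H92.OG

variable {G : Type} [Group G] [Fintype G]

theorem card_zpowers_three {a : G} (ha : orderOf a = 3) :
    Nat.card (Subgroup.zpowers a) = 3 := by
  rw [Nat.card_zpowers, ha]

/-- the pairing of two elements of order three -/
theorem q_three {a b : G} (ha : orderOf a = 3) (hb : orderOf b = 3) :
    1 / 9 ≤ q a b ∧ (Subgroup.zpowers a = Subgroup.zpowers b → 4 / 27 ≤ q a b) := by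
  have h1 := q_diff a b
  have hya : y a = 1 / 3 := by unfold y; rw [ha]; norm_num
  have hyb : y b = 1 / 3 := by unfold y; rw [hb]; norm_num
  have hdvd : Nat.card (Subgroup.zpowers a ⊓ Subgroup.zpowers b : Subgroup G) ∣ 3 := by
    have := Subgroup.card_dvd_of_le
      (inf_le_left : Subgroup.zpowers a ⊓ Subgroup.zpowers b ≤ Subgroup.zpowers a)
    rwa [card_zpowers_three ha] at this
  rw [hya, hyb, ha, hb] at h1
  constructor
  · rcases (Nat.dvd_prime Nat.prime_three).1 hdvd with h | h
    · rw [h] at h1; norm_num at h1; linarith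
    · rw [h] at h1; norm_num at h1; linarith
  · intro h
    have hc : Nat.card (Subgroup.zpowers a ⊓ Subgroup.zpowers b : Subgroup G) = 3 := by
      rw [← h, inf_idem, card_zpowers_three ha]
    rw [hc] at h1; norm_num at h1; linarith

open Classical in
/-- the number of `w` conjugating the second cyclic group into the first -/
noncomputable def tc (a b : G) : ℕ :=
  (univ.filter fun w : G => Subgroup.zpowers a = Subgroup.zpowers (w * b * w⁻¹)).card

theorem sum_q_three {a b : G} (ha : orderOf a = 3) (hb : orderOf b = 3) :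
    (Nat.card G : ℝ) / 9 + (tc a b : ℝ) / 27 ≤ ∑ w : G, q a (w * b * w⁻¹) := by
  classical
  have h1 : ∀ w : G, 1 / 9 + (if Subgroup.zpowers a = Subgroup.zpowers (w * b * w⁻¹)
      then (1 : ℝ) / 27 else 0) ≤ q a (w * b * w⁻¹) := by
    intro w
    have h2 := q_three ha (b := w * b * w⁻¹) (by rw [orderOf_conj, hb])
    split_ifs with h
    · have := h2.2 h; linarith
    · have := h2.1; linarith
  have h2 := Finset.sum_le_sum (s := univ) fun w _ => h1 w
  refine le_trans (le_of_eq ?_) h2
  rw [Finset.sum_add_distrib, Finset.sum_const, ← Finset.sum_filter, Finset.sum_const, card_univ,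
    Nat.card_eq_fintype_card, tc]
  simp only [nsmul_eq_mul]
  ring

theorem tc_self_pos (a : G) : 1 ≤ tc a a := by
  classical
  rw [tc, Nat.one_le_iff_ne_zero, Ne, card_eq_zero, filter_eq_empty_iff]
  intro h
  exact h (mem_univ (1 : G)) (by simp)

/-- if the cyclic groups are conjugate there are at least three such `w` -/
theorem three_le_tc {a b : G} (ha : orderOf a = 3)
    (h : ∃ x : G, Subgroup.zpowers a = Subgroup.zpowers (x * b * x⁻¹)) : 3 ≤ tc a b := by
  classical
  obtain ⟨x, hx⟩ := h
  have hmem : ∀ k : ℕ, Subgroup.zpowers a = Subgroup.zpowers ((a ^ k * x) * b * (a ^ k * x)⁻¹) := by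
    intro k
    have h1 : (a ^ k * x) * b * (a ^ k * x)⁻¹ = a ^ k * (x * b * x⁻¹) * (a ^ k)⁻¹ := by group
    have h2 : x * b * x⁻¹ ∈ Subgroup.zpowers a := by rw [hx]; exact Subgroup.mem_zpowers _
    obtain ⟨l, hl⟩ := Subgroup.mem_zpowers_iff.1 h2
    have h3 : a ^ k * (x * b * x⁻¹) * (a ^ k)⁻¹ = x * b * x⁻¹ := by
      rw [← hl]
      have : a ^ k * a ^ l = a ^ l * a ^ k := by
        rw [← zpow_natCast, ← zpow_add, ← zpow_add, add_comm]
      rw [this]; group
    rw [h1, h3, hx]
  have hinj : Set.InjOn (fun k : ℕ => a ^ k * x) (range 3 : Finset ℕ) := by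
    intro k hk l hl hkl
    have h1 : a ^ k = a ^ l := mul_right_cancel hkl
    have hk' : k < orderOf a := by rw [ha]; simpa using hk
    have hl' : l < orderOf a := by rw [ha]; simpa using hl
    exact pow_injOn_Iio_orderOf hk' hl' h1
  have h1 : ((range 3).image fun k : ℕ => a ^ k * x) ⊆
      univ.filter fun w : G => Subgroup.zpowers a = Subgroup.zpowers (w * b * w⁻¹) := by
    intro w hw
    rw [mem_image] at hw
    obtain ⟨k, -, rfl⟩ := hw
    rw [mem_filter]
    exact ⟨mem_univ _, hmem k⟩
  have h2 := card_le_card h1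
  rw [card_image_of_injOn hinj, card_range] at h2
  exact h2

/-- the bound in terms of the number of pairs with conjugate cyclic groups -/
theorem bound_three (ho : Odd (Nat.card G)) (s : Fin 4 → G) (hs : ∀ i, orderOf (s i) = 3) {t : ℝ}
    (ht : t ≤ ∑ i, ∑ j, (tc (s i) (s j) : ℝ)) :
    (Nat.card G : ℝ) / 9 + t / 27 ≤ 2 * (quadInv s).re + 1 := by
  have hn : (0 : ℝ) < Nat.card G := by exact_mod_cast Nat.card_pos
  have h1 := two_quadInv ho s
  rw [sum_chi_sq] at h1
  have hnu : nu s = 8 / 3 := by
    unfold nu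
    simp only [hs, sum_const, card_univ, Fintype.card_fin, nsmul_eq_mul]
    norm_num
  have h2 : 16 * (Nat.card G : ℝ) / 9 + t / 27 ≤
      ∑ i, ∑ j, ∑ w : G, q (s i) (w * s j * w⁻¹) := by
    have h3 := Finset.sum_le_sum (s := (univ : Finset (Fin 4))) fun i _ =>
      Finset.sum_le_sum (s := (univ : Finset (Fin 4))) fun j _ => sum_q_three (hs i) (hs j)
    refine le_trans ?_ h3
    simp only [sum_add_distrib, sum_const, card_univ, Fintype.card_fin, nsmul_eq_mul,
      ← Finset.sum_div]
    push_cast
    linarith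
  have h3 := mul_le_mul_of_nonneg_left h2 hn.le
  rw [hnu] at h1
  have h4 : (Nat.card G : ℝ) * ((Nat.card G : ℝ) / 9 + t / 27) ≤
      (Nat.card G : ℝ) * (2 * (quadInv s).re + 1) := by
    nlinarith
  exact le_of_mul_le_mul_left h4 hn

end Pool.Agent.H78.OD
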